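import Mathlib

set_option autoImplicit false

namespace Pool.Agent.Results.MP_7906d6_an.JetDegree

open Metric Set Filter Topology Real

/-- removing a zero of order `m` at the origin -/
theorem fact (u : ℂ → ℂ) (hu : DifferentiableOn ℂ u (ball 0 1)) (m : ℕ)
    (h : u =O[𝓝 0] (fun ζ => ‖ζ‖ ^ m)) :
    ∃ g : ℂ → ℂ, DifferentiableOn ℂ g (ball 0 1) ∧ ∀ ζ, u ζ = ζ ^ m * g ζ := by
  induction m with
  | zero => exact ⟨u, hu, fun ζ => by simp⟩
  | succ m ih =>
    have h' : u =O[𝓝 0] (fun ζ => ‖ζ‖ ^ m) := by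
      refine h.trans ?_
      have : (fun ζ : ℂ => ‖ζ‖ ^ (m + 1)) = fun ζ => ‖ζ‖ ^ m * ‖ζ‖ := by funext ζ; ring
      rw [this]
      have h1 : (fun ζ : ℂ => ‖ζ‖) =O[𝓝 0] (fun _ => (1 : ℝ)) := by
        apply Asymptotics.IsBigO.of_bound 1
        filter_upwards [ball_mem_nhds (0:ℂ) one_pos] with ζ hζ
        simp only [mem_ball, dist_zero_right] at hζ
        simp; linarith
      simpa using (Asymptotics.isBigO_refl (fun ζ : ℂ => ‖ζ‖ ^ m) (𝓝 0)).mul h1
    obtain ⟨g, hg, hug⟩ := ih h'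
    have hg0 : g 0 = 0 := by
      have hgc : ContinuousAt g 0 := (hg.differentiableAt (ball_mem_nhds 0 one_pos)).continuousAt
      obtain ⟨C, hC⟩ := h.bound
      have hev : ∀ᶠ ζ in 𝓝[≠] (0:ℂ), ‖g ζ‖ ≤ C * ‖ζ‖ := by
        have h1 : ∀ᶠ ζ in 𝓝[≠] (0:ℂ), ‖u ζ‖ ≤ C * ‖‖ζ‖ ^ (m+1)‖ := hC.filter_mono nhdsWithin_le_nhds
        filter_upwards [h1, self_mem_nhdsWithin] with ζ hζ hne
        have hne' : ζ ≠ 0 := hne
        have hp : 0 < ‖ζ‖ ^ m := by positivity
        rw [hug ζ, norm_mul, norm_pow] at hζ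
        have : ‖ζ‖ ^ m * ‖g ζ‖ ≤ ‖ζ‖ ^ m * (C * ‖ζ‖) := by
          calc _ ≤ C * ‖‖ζ‖ ^ (m+1)‖ := hζ
            _ = ‖ζ‖ ^ m * (C * ‖ζ‖) := by rw [Real.norm_of_nonneg (by positivity)]; ring
        exact le_of_mul_le_mul_left this hp
      have ht : Tendsto (fun ζ => ‖g ζ‖) (𝓝[≠] (0:ℂ)) (𝓝 ‖g 0‖) := (hgc.norm.tendsto).mono_left nhdsWithin_le_nhds
      have ht2 : Tendsto (fun ζ : ℂ => C * ‖ζ‖) (𝓝[≠] (0:ℂ)) (𝓝 0) := by
        have : Tendsto (fun ζ : ℂ => C * ‖ζ‖) (𝓝 (0:ℂ)) (𝓝 (C * ‖(0:ℂ)‖)) := by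
          apply Continuous.tendsto; fun_prop
        simp at this
        exact this.mono_left nhdsWithin_le_nhds
      have := le_of_tendsto_of_tendsto ht ht2 hev
      exact norm_le_zero_iff.1 this
    refine ⟨dslope g 0, (Complex.differentiableOn_dslope (ball_mem_nhds 0 one_pos)).2 hg, fun ζ => ?_⟩
    have := sub_smul_dslope g 0 ζ
    rw [hg0, sub_zero, sub_zero, smul_eq_mul] at this
    rw [hug ζ, ← this]; ring

theorem norm_circleAverage_le {f : ℂ → ℂ} {c : ℂ} {R : ℝ} :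
    ‖circleAverage f c R‖ ≤ circleAverage (fun z => ‖f z‖) c R := by
  rw [circleAverage, circleAverage, norm_smul, smul_eq_mul, Real.norm_of_nonneg (by positivity)]
  apply mul_le_mul_of_nonneg_left _ (by positivity)
  exact intervalIntegral.norm_integral_le_integral_norm (by positivity)

/-- pointwise bound by the mean square -/
theorem pt_bound (u : ℂ → ℂ) (hu : DifferentiableOn ℂ u (ball 0 1)) (ρ : ℝ) (h0 : 0 < ρ) (h1 : ρ < 1)
    (z : ℂ) (hz : ‖z‖ < ρ) :
    ‖u z‖ ^ 2 ≤ ρ / (ρ - ‖z‖) * circleAverage (fun ζ => ‖u ζ‖ ^ 2) 0 ρ := by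
  have habs : |ρ| = ρ := abs_of_pos h0
  have hsub : closedBall (0:ℂ) ρ ⊆ ball 0 1 := closedBall_subset_ball h1
  have hd : DiffContOnCl ℂ (fun ζ => u ζ ^ 2) (ball 0 |ρ|) := by
    rw [habs]
    apply DifferentiableOn.diffContOnCl
    rw [closure_ball _ h0.ne']
    exact (hu.mono hsub).pow 2
  have key := hd.circleAverage_smul_div (w := z) (by rw [habs]; simpa using hz)
  have hcu : ContinuousOn u (sphere 0 ρ) := (hu.continuousOn).mono (sphere_subset_closedBall.trans hsub)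
  have hc2 : ContinuousOn (fun ζ => ‖u ζ‖ ^ 2) (sphere 0 ρ) := (hcu.norm).pow 2
  have hne : ∀ ζ ∈ sphere (0:ℂ) ρ, ζ - z ≠ 0 := by
    intro ζ hζ h
    have : ζ = z := sub_eq_zero.1 h
    rw [this] at hζ
    simp at hζ
    linarith
  calc ‖u z‖ ^ 2 = ‖circleAverage (fun ζ ↦ ((ζ - 0) / (ζ - z)) • (u ζ ^ 2)) 0 ρ‖ := by rw [key]; simp
    _ ≤ circleAverage (fun ζ => ‖((ζ - 0) / (ζ - z)) • (u ζ ^ 2)‖) 0 ρ := norm_circleAverage_le
    _ ≤ circleAverage (fun ζ => (ρ / (ρ - ‖z‖)) • ‖u ζ‖ ^ 2) 0 ρ := by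
        apply circleAverage_mono
        · apply ContinuousOn.circleIntegrable h0.le
          simp only [smul_eq_mul]
          exact ((ContinuousOn.div (by fun_prop) (by fun_prop) hne).mul (hcu.pow 2)).norm
        · apply ContinuousOn.circleIntegrable h0.le
          exact continuousOn_const.mul hc2
        · intro ζ hζ
          rw [habs] at hζ
          have hζ' : ‖ζ‖ = ρ := by simpa using hζ
          rw [norm_smul, norm_div, sub_zero, hζ', norm_pow, smul_eq_mul]
          apply mul_le_mul_of_nonneg_right _ (by positivity)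
          apply div_le_div_of_nonneg_left h0.le (by linarith)
          have := norm_sub_norm_le ζ z
          rw [hζ'] at this
          exact this
    _ = _ := by rw [circleAverage_fun_smul]; rfl

theorem avg_conj_mul (r : ℕ) (p : Polynomial ℂ) (hp : p.natDegree ≤ r) (u : ℂ → ℂ)
    (hu : DifferentiableOn ℂ u (ball 0 1)) (h : u =O[𝓝 0] (fun ζ => ‖ζ‖ ^ (r+1)))
    (ρ : ℝ) (h0 : 0 < ρ) (h1 : ρ < 1) :
    circleAverage (fun ζ => (starRingEnd ℂ) (p.eval ζ) * u ζ) 0 ρ = 0 := by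
  obtain ⟨g, hg, hug⟩ := fact u hu (r+1) h
  have habs : |ρ| = ρ := abs_of_pos h0
  have hsub : closedBall (0:ℂ) ρ ⊆ ball 0 1 := closedBall_subset_ball h1
  let H : ℂ → ℂ := fun ζ => ∑ k ∈ Finset.range (r+1), (starRingEnd ℂ) (p.coeff k) * ((ρ:ℂ) ^ (2 * k)) * ζ ^ (r + 1 - k) * g ζ
  have hH : DiffContOnCl ℂ H (ball 0 |ρ|) := by
    rw [habs]
    apply DifferentiableOn.diffContOnCl
    rw [closure_ball _ h0.ne']
    apply DifferentiableOn.fun_sum
    intro k _
    exact (DifferentiableOn.mul (by fun_prop) (hg.mono hsub))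
  have heq : EqOn (fun ζ => (starRingEnd ℂ) (p.eval ζ) * u ζ) H (sphere 0 |ρ|) := by
    intro ζ hζ
    rw [habs] at hζ
    have hζ' : ‖ζ‖ = ρ := by simpa using hζ
    have hcc : (starRingEnd ℂ) ζ * ζ = (ρ:ℂ) ^ 2 := by
      rw [mul_comm, Complex.mul_conj, Complex.normSq_eq_norm_sq, hζ']; push_cast; ring
    simp only [H]
    rw [Polynomial.eval_eq_sum_range' (Nat.lt_succ_of_le hp), map_sum, Finset.sum_mul]
    apply Finset.sum_congr rfl
    intro k hk
    have hk' : k ≤ r + 1 := by have := Finset.mem_range.1 hk; omega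
    rw [map_mul, map_pow, hug ζ]
    have : ζ ^ (r+1) = ζ ^ k * ζ ^ (r + 1 - k) := by rw [← pow_add]; congr 1; omega
    rw [this]
    have h2 : (starRingEnd ℂ) ζ ^ k * ζ ^ k = (ρ:ℂ) ^ (2*k) := by rw [← mul_pow, hcc, ← pow_mul]
    calc _ = (starRingEnd ℂ) (p.coeff k) * ((starRingEnd ℂ) ζ ^ k * ζ ^ k) * ζ ^ (r + 1 - k) * g ζ := by ring
      _ = _ := by rw [h2]
  rw [circleAverage_congr_sphere heq, hH.circleAverage]
  simp only [H]
  apply Finset.sum_eq_zero
  intro k hk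
  have : r + 1 - k ≠ 0 := by have := Finset.mem_range.1 hk; omega
  simp [this]

/-- the mean square of `u = q f - p` -/
theorem avg_sq (r : ℕ) (p : Polynomial ℂ) (hp : p.natDegree ≤ r) (u w : ℂ → ℂ)
    (hu : DifferentiableOn ℂ u (ball 0 1)) (h : u =O[𝓝 0] (fun ζ => ‖ζ‖ ^ (r+1)))
    (hw : ∀ ζ ∈ ball (0:ℂ) 1, w ζ = p.eval ζ + u ζ)
    (ρ : ℝ) (h0 : 0 < ρ) (h1 : ρ < 1) :
    circleAverage (fun ζ => ‖u ζ‖ ^ 2) 0 ρ = circleAverage (fun ζ => ‖w ζ‖ ^ 2 - ‖p.eval ζ‖ ^ 2) 0 ρ := by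
  have habs : |ρ| = ρ := abs_of_pos h0
  have hsub : closedBall (0:ℂ) ρ ⊆ ball 0 1 := closedBall_subset_ball h1
  have hcu : ContinuousOn u (sphere 0 ρ) := (hu.continuousOn).mono (sphere_subset_closedBall.trans hsub)
  have key := avg_conj_mul r p hp u hu h ρ h0 h1
  have hint : CircleIntegrable (fun ζ => (starRingEnd ℂ) (p.eval ζ) * u ζ) 0 ρ := by
    apply ContinuousOn.circleIntegrable h0.le
    apply ContinuousOn.mul _ hcu
    apply Continuous.continuousOn
    exact Complex.continuous_conj.comp p.continuous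
  have hre : circleAverage (fun ζ => 2 * ((starRingEnd ℂ) (p.eval ζ) * u ζ).re) 0 ρ = 0 := by
    have := Complex.reCLM.circleAverage_comp_comm hint
    rw [key] at this
    have h3 : circleAverage (fun ζ => (2:ℝ) • ((starRingEnd ℂ) (p.eval ζ) * u ζ).re) 0 ρ
        = (2:ℝ) • circleAverage (fun ζ => ((starRingEnd ℂ) (p.eval ζ) * u ζ).re) 0 ρ := circleAverage_fun_smul
    have h4 : circleAverage (fun ζ => ((starRingEnd ℂ) (p.eval ζ) * u ζ).re) 0 ρ = 0 := by
      simpa [Function.comp_def] using this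
    rw [h4] at h3
    simpa using h3
  have hcre : ContinuousOn (fun ζ => 2 * ((starRingEnd ℂ) (p.eval ζ) * u ζ).re) (sphere 0 ρ) := by
    apply ContinuousOn.mul continuousOn_const
    apply Complex.continuous_re.comp_continuousOn
    apply ContinuousOn.mul _ hcu
    apply Continuous.continuousOn
    exact Complex.continuous_conj.comp p.continuous
  have hsum : circleAverage (fun ζ => ‖u ζ‖ ^ 2 + 2 * ((starRingEnd ℂ) (p.eval ζ) * u ζ).re) 0 ρ
      = circleAverage (fun ζ => ‖u ζ‖ ^ 2) 0 ρ + circleAverage (fun ζ => 2 * ((starRingEnd ℂ) (p.eval ζ) * u ζ).re) 0 ρ := by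
    apply circleAverage_fun_add
    · exact ContinuousOn.circleIntegrable h0.le (hcu.norm.pow 2)
    · exact ContinuousOn.circleIntegrable h0.le hcre
  rw [hre, add_zero] at hsum
  rw [← hsum]
  apply circleAverage_congr_sphere
  intro ζ hζ
  rw [habs] at hζ
  have hζb : ζ ∈ ball (0:ℂ) 1 := (sphere_subset_closedBall.trans hsub) hζ
  simp only
  rw [hw ζ hζb]
  simp only [← Complex.normSq_eq_norm_sq, Complex.normSq_apply]
  simp
  ring

/-- one variable core -/
theorem core (N r : ℕ) (f : Fin N → ℂ → ℂ) (p : Fin N → Polynomial ℂ) (q : Polynomial ℂ)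
    (hf : ∀ i, DifferentiableOn ℂ (f i) (ball 0 1))
    (hf1 : ∀ ζ ∈ ball (0:ℂ) 1, ∑ i, ‖f i ζ‖ ^ 2 ≤ 1)
    (hp : ∀ i, (p i).natDegree ≤ r)
    (hcirc : ∀ ω : ℂ, ‖ω‖ = 1 → ∑ i, ‖(p i).eval ω‖ ^ 2 = ‖q.eval ω‖ ^ 2)
    (hjet : ∀ i, (fun ζ => q.eval ζ * f i ζ - (p i).eval ζ) =O[𝓝 0] (fun ζ => ‖ζ‖ ^ (r + 1))) :
    ∀ ζ ∈ ball (0:ℂ) 1, ∀ i, q.eval ζ * f i ζ = (p i).eval ζ := by
  intro z hz
  have hz1 : ‖z‖ < 1 := by simpa using hz
  set u : Fin N → ℂ → ℂ := fun i ζ => q.eval ζ * f i ζ - (p i).eval ζ with hudef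
  have hu : ∀ i, DifferentiableOn ℂ (u i) (ball 0 1) := by
    intro i
    apply DifferentiableOn.sub
    · exact (q.differentiable.differentiableOn).mul (hf i)
    · exact (p i).differentiable.differentiableOn
  let H : ℂ → ℝ := fun ζ => ‖q.eval ζ‖ ^ 2 - ∑ i, ‖(p i).eval ζ‖ ^ 2
  have hHc : Continuous H := by
    apply Continuous.sub
    · exact (q.continuous.norm).pow 2
    · exact continuous_finsetSum _ fun i _ => ((p i).continuous.norm).pow 2
  have hH1 : ∀ ω : ℂ, ‖ω‖ = 1 → H ω = 0 := by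
    intro ω hω; simp only [H]; rw [hcirc ω hω]; ring
  have main : ∀ ε > 0, ∑ i, ‖u i z‖ ^ 2 ≤ 2 / (1 - ‖z‖) * ε := by
    intro ε hε
    have huc : UniformContinuousOn H (closedBall 0 1) :=
      (isCompact_closedBall (0:ℂ) 1).uniformContinuousOn_of_continuous hHc.continuousOn
    obtain ⟨δ, hδ, hδ'⟩ := Metric.uniformContinuousOn_iff.1 huc ε hε
    set ρ : ℝ := max ((1 + ‖z‖) / 2) (1 - δ / 2) with hρ
    have hρ1 : ρ < 1 := by
      apply max_lt <;> linarith
    have hρz : (1 + ‖z‖) / 2 ≤ ρ := le_max_left _ _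
    have hρd : 1 - δ / 2 ≤ ρ := le_max_right _ _
    have hρ0 : 0 < ρ := by have := norm_nonneg z; linarith
    have habs : |ρ| = ρ := abs_of_pos hρ0
    have hsub : closedBall (0:ℂ) ρ ⊆ ball 0 1 := closedBall_subset_ball hρ1
    have hsp : sphere (0:ℂ) ρ ⊆ ball 0 1 := sphere_subset_closedBall.trans hsub
    have hHe : ∀ ζ ∈ sphere (0:ℂ) ρ, H ζ ≤ ε := by
      intro ζ hζ
      have hζ' : ‖ζ‖ = ρ := by simpa using hζ
      have hω : ‖(ρ:ℂ)⁻¹ * ζ‖ = 1 := by
        rw [norm_mul, norm_inv, Complex.norm_real, Real.norm_of_nonneg hρ0.le, hζ']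
        exact inv_mul_cancel₀ hρ0.ne'
      have hdist : dist ζ ((ρ:ℂ)⁻¹ * ζ) < δ := by
        have hρc : (ρ:ℂ) ≠ 0 := by exact_mod_cast hρ0.ne'
        have : ζ - (ρ:ℂ)⁻¹ * ζ = (((ρ - 1 : ℝ)) : ℂ) * ((ρ:ℂ)⁻¹ * ζ) := by
          push_cast
          field_simp
        rw [dist_eq_norm, this, norm_mul, hω, mul_one, Complex.norm_real, Real.norm_eq_abs, abs_of_neg (by linarith)]
        linarith
      have := hδ' ζ (by simp [hζ']; exact hρ1.le) ((ρ:ℂ)⁻¹ * ζ) (by rw [mem_closedBall, dist_zero_right, hω]) hdist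
      rw [hH1 _ hω, dist_zero_right] at this
      exact (le_abs_self _).trans this.le
    have hcu : ∀ i, ContinuousOn (u i) (sphere 0 ρ) := fun i => ((hu i).continuousOn).mono hsp
    have hcf : ∀ i, ContinuousOn (f i) (sphere 0 ρ) := fun i => ((hf i).continuousOn).mono hsp
    have e1 : ∑ i, circleAverage (fun ζ => ‖u i ζ‖ ^ 2) 0 ρ ≤ ε := by
      have e2 : ∀ i, circleAverage (fun ζ => ‖u i ζ‖ ^ 2) 0 ρ
          = circleAverage (fun ζ => ‖q.eval ζ * f i ζ‖ ^ 2 - ‖(p i).eval ζ‖ ^ 2) 0 ρ := by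
        intro i
        exact avg_sq r (p i) (hp i) (u i) (fun ζ => q.eval ζ * f i ζ) (hu i) (hjet i)
          (fun ζ _ => by simp [hudef]) ρ hρ0 hρ1
      have hci : ∀ i ∈ (Finset.univ : Finset (Fin N)), CircleIntegrable (fun ζ => ‖q.eval ζ * f i ζ‖ ^ 2 - ‖(p i).eval ζ‖ ^ 2) 0 ρ := by
        intro i _
        apply ContinuousOn.circleIntegrable hρ0.le
        apply ContinuousOn.sub
        · exact ((q.continuous.continuousOn.mul (hcf i)).norm).pow 2
        · exact ((p i).continuous.continuousOn.norm).pow 2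
      rw [Finset.sum_congr rfl (fun i _ => e2 i), ← circleAverage_fun_sum hci]
      apply circleAverage_mono_on_of_le_circle
      · apply ContinuousOn.circleIntegrable hρ0.le
        apply continuousOn_finsetSum
        intro i _
        apply ContinuousOn.sub
        · exact ((q.continuous.continuousOn.mul (hcf i)).norm).pow 2
        · exact ((p i).continuous.continuousOn.norm).pow 2
      · intro ζ hζ
        rw [habs] at hζ
        refine le_trans ?_ (hHe ζ hζ)
        rw [Finset.sum_sub_distrib]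
        simp only [H]
        apply sub_le_sub_right
        have : ∀ i, ‖q.eval ζ * f i ζ‖ ^ 2 = ‖q.eval ζ‖ ^ 2 * ‖f i ζ‖ ^ 2 := by
          intro i; rw [norm_mul, mul_pow]
        rw [Finset.sum_congr rfl (fun i _ => this i), ← Finset.mul_sum]
        have h5 := hf1 ζ (hsp hζ)
        calc _ ≤ ‖q.eval ζ‖ ^ 2 * 1 := mul_le_mul_of_nonneg_left h5 (by positivity)
          _ = _ := mul_one _
    have e3 : ∀ i, ‖u i z‖ ^ 2 ≤ ρ / (ρ - ‖z‖) * circleAverage (fun ζ => ‖u i ζ‖ ^ 2) 0 ρ :=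
      fun i => pt_bound (u i) (hu i) ρ hρ0 hρ1 z (by linarith)
    have hA0 : 0 ≤ ∑ i, circleAverage (fun ζ => ‖u i ζ‖ ^ 2) 0 ρ :=
      Finset.sum_nonneg fun i _ => circleAverage_nonneg_of_nonneg (fun x _ => by positivity)
    have hzρ : 0 < ρ - ‖z‖ := by linarith
    have e4 : ρ / (ρ - ‖z‖) ≤ 2 / (1 - ‖z‖) := by
      rw [div_le_div_iff₀ hzρ (by linarith)]
      nlinarith [norm_nonneg z]
    calc ∑ i, ‖u i z‖ ^ 2 ≤ ∑ i, ρ / (ρ - ‖z‖) * circleAverage (fun ζ => ‖u i ζ‖ ^ 2) 0 ρ :=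
          Finset.sum_le_sum fun i _ => e3 i
      _ = ρ / (ρ - ‖z‖) * ∑ i, circleAverage (fun ζ => ‖u i ζ‖ ^ 2) 0 ρ := by rw [Finset.mul_sum]
      _ ≤ 2 / (1 - ‖z‖) * ε := mul_le_mul e4 e1 hA0 (by apply div_nonneg <;> linarith)
  have hzero : ∑ i, ‖u i z‖ ^ 2 ≤ 0 := by
    apply le_of_forall_pos_le_add
    intro ε hε
    have hc : 0 < 2 / (1 - ‖z‖) := by apply div_pos <;> linarith
    have := main (ε / (2 / (1 - ‖z‖))) (by positivity)
    rw [mul_div_cancel₀ _ hc.ne'] at this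
    linarith
  intro i
  have h6 : ‖u i z‖ ^ 2 ≤ ∑ i, ‖u i z‖ ^ 2 := Finset.single_le_sum (f := fun i => ‖u i z‖ ^ 2) (fun _ _ => by positivity) (Finset.mem_univ i)
  have h7 : ‖u i z‖ ^ 2 = 0 := le_antisymm (h6.trans hzero) (by positivity)
  have h8 : u i z = 0 := by simpa using h7
  exact sub_eq_zero.1 h8


/-- `ℂ^m` with its Hermitian norm -/
abbrev CE (m : ℕ) : Type := EuclideanSpace ℂ (Fin m)

/-- the open unit ball of `ℂ^m` -/
def BB (m : ℕ) : Set (CE m) := Metric.ball 0 1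

/-- `F` is a proper holomorphic map from the unit ball of `ℂ^n` to the unit ball of `ℂ^N`
(the values of `F` outside the ball play no role) -/
structure ProperHol (n N : ℕ) (F : CE n → CE N) : Prop where
  hol : AnalyticOnNhd ℂ F (BB n)
  maps : MapsTo F (BB n) (BB N)
  proper : ∀ K ⊆ BB N, IsCompact K → IsCompact (BB n ∩ F ⁻¹' K)

/-- on the ball, `F = p / q` with polynomials of degree at most `d` and `q` without zeros -/
def RatDeg (n N d : ℕ) (F : CE n → CE N) : Prop :=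
  ∃ (p : Fin N → MvPolynomial (Fin n) ℂ) (q : MvPolynomial (Fin n) ℂ),
    (∀ i, (p i).totalDegree ≤ d) ∧ q.totalDegree ≤ d ∧
    ∀ z ∈ BB n, MvPolynomial.eval (fun j => z j) q ≠ 0 ∧
      ∀ i, F z i = MvPolynomial.eval (fun j => z j) (p i) / MvPolynomial.eval (fun j => z j) q

/-- `F` and `G` have the same `r`-jet at the origin -/
def SameJet {n N : ℕ} (r : ℕ) (F G : CE n → CE N) : Prop :=
  ∀ k ≤ r, iteratedFDeriv ℂ k F 0 = iteratedFDeriv ℂ k G 0

theorem zero_mem_BB (m : ℕ) : (0 : CE m) ∈ BB m := by simp [BB]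

theorem mem_BB {m : ℕ} {z : CE m} : z ∈ BB m ↔ ‖z‖ < 1 := by simp [BB]

theorem bigO_of_jet {n N r : ℕ} {F G : CE n → CE N} (hF : AnalyticAt ℂ F 0) (hG : AnalyticAt ℂ G 0)
    (h : SameJet r F G) : (fun z => F z - G z) =O[𝓝 0] (fun z => ‖z‖ ^ (r+1)) := by
  have hD : AnalyticAt ℂ (fun z => F z - G z) 0 := hF.sub hG
  obtain ⟨p, ρ, hp⟩ := hD
  have hz : ∀ k ≤ r, ∀ y : CE n, p k (fun _ => y) = 0 := by
    intro k hk y
    have h1 := hp.factorial_smul y k
    have h2 : iteratedFDeriv ℂ k (fun z => F z - G z) 0 = 0 := by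
      have := iteratedFDeriv_sub_apply (𝕜 := ℂ) (i := k) (f := F) (g := G) (x := 0)
        (hF.contDiffAt) (hG.contDiffAt)
      have h3 : (fun z => F z - G z) = F - G := rfl
      rw [h3, this, h k hk, sub_self]
    rw [h2] at h1
    have h4 : (k.factorial : ℕ) • (p k fun _ => y) = 0 := by rw [h1]; rfl
    rw [← Nat.cast_smul_eq_nsmul ℂ] at h4
    rcases smul_eq_zero.1 h4 with h5 | h5
    · exact absurd (by exact_mod_cast h5) (Nat.factorial_ne_zero k)
    · exact h5
  have hO := hp.hasFPowerSeriesAt.isBigO_sub_partialSum_pow (r+1)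
  have hps : ∀ y, p.partialSum (r+1) y = 0 := by
    intro y
    unfold FormalMultilinearSeries.partialSum
    apply Finset.sum_eq_zero
    intro k hk
    exact hz k (by have := Finset.mem_range.1 hk; omega) y
  simpa [hps] using hO

theorem proper_lim {n N : ℕ} {R : CE n → CE N} (hR : ProperHol n N R) (ε : ℝ) (hε : 0 < ε) :
    ∃ s < (1:ℝ), ∀ z ∈ BB n, s < ‖z‖ → 1 - ε < ‖R z‖ := by
  have hK : Metric.closedBall (0 : CE N) (1 - ε) ⊆ BB N := by
    unfold BB
    exact closedBall_subset_ball (by linarith)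
  have hS := hR.proper _ hK (isCompact_closedBall _ _)
  rcases (BB n ∩ R ⁻¹' Metric.closedBall (0 : CE N) (1 - ε)).eq_empty_or_nonempty with he | hne
  · refine ⟨0, one_pos, fun z hz _ => ?_⟩
    by_contra hcon
    have : z ∈ BB n ∩ R ⁻¹' Metric.closedBall (0 : CE N) (1 - ε) := by
      refine ⟨hz, ?_⟩
      simp only [mem_preimage, mem_closedBall, dist_zero_right]
      linarith
    rw [he] at this
    exact this
  · obtain ⟨z0, hz0, hmax⟩ := hS.exists_isMaxOn hne (continuous_norm.continuousOn)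
    refine ⟨‖z0‖, mem_BB.1 hz0.1, fun z hz hlt => ?_⟩
    by_contra hcon
    have : z ∈ BB n ∩ R ⁻¹' Metric.closedBall (0 : CE N) (1 - ε) := by
      refine ⟨hz, ?_⟩
      simp only [mem_preimage, mem_closedBall, dist_zero_right]
      linarith
    have := hmax this
    simp only [Set.mem_ofPred_eq] at this
    linarith

/-- restriction of a polynomial to a complex line -/
noncomputable def sl {n : ℕ} (v : CE n) (P : MvPolynomial (Fin n) ℂ) : Polynomial ℂ :=
  MvPolynomial.aeval (fun j => Polynomial.C (v j) * Polynomial.X) P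

theorem sl_eval {n : ℕ} (v : CE n) (P : MvPolynomial (Fin n) ℂ) (ζ : ℂ) :
    (sl v P).eval ζ = MvPolynomial.eval (fun j => (ζ • v) j) P := by
  unfold sl
  induction P using MvPolynomial.induction_on with
  | C a => simp
  | add p q hp hq => simp only [map_add, Polynomial.eval_add, hp, hq]
  | mul_X p i hp =>
    simp only [map_mul, Polynomial.eval_mul, hp, MvPolynomial.aeval_X, MvPolynomial.eval_X]
    simp
    ring_nf
    tauto

theorem sl_deg {n : ℕ} (v : CE n) (P : MvPolynomial (Fin n) ℂ) (d : ℕ) (h : P.totalDegree ≤ d) :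
    (sl v P).natDegree ≤ d := by
  have := MvPolynomial.aeval_natDegree_le (m := d) (n := 1) P h (fun j => Polynomial.C (v j) * Polynomial.X)
    (fun i => by
      refine (Polynomial.natDegree_C_mul_le _ _).trans ?_
      exact Polynomial.natDegree_X_le)
  simpa [sl] using this

theorem circ_id {n N : ℕ} {R : CE n → CE N} (hR : ProperHol n N R)
    (p : Fin N → MvPolynomial (Fin n) ℂ) (q : MvPolynomial (Fin n) ℂ)
    (hpq : ∀ z ∈ BB n, MvPolynomial.eval (fun j => z j) q ≠ 0 ∧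
      ∀ i, R z i = MvPolynomial.eval (fun j => z j) (p i) / MvPolynomial.eval (fun j => z j) q)
    (v : CE n) (hv : ‖v‖ = 1) (ω : ℂ) (hω : ‖ω‖ = 1) :
    ∑ i, ‖(sl v (p i)).eval ω‖ ^ 2 = ‖(sl v q).eval ω‖ ^ 2 := by
  let H : ℂ → ℝ := fun ζ => ‖(sl v q).eval ζ‖ ^ 2 - ∑ i, ‖(sl v (p i)).eval ζ‖ ^ 2
  have hHc : Continuous H := by
    apply Continuous.sub
    · exact ((sl v q).continuous.norm).pow 2
    · exact continuous_finsetSum _ fun i _ => ((sl v (p i)).continuous.norm).pow 2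
  have hcont : Continuous (fun t : ℝ => ((t:ℂ) * ω)) := by fun_prop
  have h1 : Tendsto (fun t : ℝ => H ((t:ℂ) * ω)) (𝓝[<] 1) (𝓝 (H ω)) := by
    have := (hHc.comp hcont).tendsto 1
    simp only [Function.comp, Complex.ofReal_one, one_mul] at this
    exact this.mono_left nhdsWithin_le_nhds
  have hball : ∀ t : ℝ, 0 < t → t < 1 → ((t:ℂ) * ω) • v ∈ BB n ∧ ‖((t:ℂ) * ω) • v‖ = t := by
    intro t h0 h1
    have : ‖((t:ℂ) * ω) • v‖ = t := by
      rw [norm_smul, norm_mul, hω, hv, Complex.norm_real, Real.norm_of_nonneg h0.le]; ring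
    exact ⟨mem_BB.2 (by rw [this]; exact h1), this⟩
  have hev : ∀ᶠ t : ℝ in 𝓝[<] 1, 0 < t ∧ t < 1 := by
    have h2 : ∀ᶠ t : ℝ in 𝓝[<] 1, t < 1 := self_mem_nhdsWithin
    have h3 : ∀ᶠ t : ℝ in 𝓝[<] (1:ℝ), 0 < t := by
      exact (lt_mem_nhds (one_pos)).filter_mono nhdsWithin_le_nhds
    exact h3.and h2
  have hnorm : Tendsto (fun t : ℝ => ‖R (((t:ℂ) * ω) • v)‖) (𝓝[<] 1) (𝓝 1) := by
    rw [Metric.tendsto_nhds]
    intro ε hε
    obtain ⟨s, hs, hs'⟩ := proper_lim hR ε hε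
    have h3 : ∀ᶠ t : ℝ in 𝓝[<] (1:ℝ), s < t := (lt_mem_nhds hs).filter_mono nhdsWithin_le_nhds
    filter_upwards [hev, h3] with t ht hst
    obtain ⟨hb, hn⟩ := hball t ht.1 ht.2
    have h4 := hs' _ hb (by rw [hn]; exact hst)
    have h5 := mem_BB.1 (hR.maps hb)
    rw [Real.dist_eq, abs_lt]
    constructor <;> linarith
  have h2 : Tendsto (fun t : ℝ => ‖(sl v q).eval ((t:ℂ) * ω)‖ ^ 2 * (1 - ‖R (((t:ℂ) * ω) • v)‖ ^ 2))
      (𝓝[<] 1) (𝓝 (‖(sl v q).eval ω‖ ^ 2 * (1 - 1 ^ 2))) := by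
    apply Tendsto.mul
    · have : Continuous (fun t : ℝ => ‖(sl v q).eval ((t:ℂ) * ω)‖ ^ 2) :=
        (((sl v q).continuous.comp hcont).norm).pow 2
      have := this.tendsto 1
      simp only [Complex.ofReal_one, one_mul] at this
      exact this.mono_left nhdsWithin_le_nhds
    · exact tendsto_const_nhds.sub (hnorm.pow 2)
  have h3 : (fun t : ℝ => H ((t:ℂ) * ω)) =ᶠ[𝓝[<] 1]
      (fun t : ℝ => ‖(sl v q).eval ((t:ℂ) * ω)‖ ^ 2 * (1 - ‖R (((t:ℂ) * ω) • v)‖ ^ 2)) := by
    filter_upwards [hev] with t ht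
    obtain ⟨hb, hn⟩ := hball t ht.1 ht.2
    obtain ⟨hq0, hRi⟩ := hpq _ hb
    simp only [H]
    rw [EuclideanSpace.norm_sq_eq]
    have : ∀ i, ‖(sl v (p i)).eval ((t:ℂ) * ω)‖ ^ 2
        = ‖(sl v q).eval ((t:ℂ) * ω)‖ ^ 2 * ‖R (((t:ℂ) * ω) • v) i‖ ^ 2 := by
      intro i
      rw [hRi i, sl_eval, sl_eval, norm_div, div_pow]
      have hq1 : ‖MvPolynomial.eval (fun j => (((t:ℂ) * ω) • v) j) q‖ ^ 2 ≠ 0 := by
        have := norm_ne_zero_iff.2 hq0
        positivity
      field_simp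
    rw [Finset.sum_congr rfl (fun i _ => this i), ← Finset.mul_sum]
    ring
  have h4 := tendsto_nhds_unique (h1.congr' h3) h2
  simp only [H] at h4
  have : (‖(sl v q).eval ω‖ ^ 2 * (1 - 1 ^ 2) : ℝ) = 0 := by ring
  rw [this] at h4
  linarith

/-- **Main theorem**: a proper rational map of degree at most `r` is determined by its `r`-jet at
the origin among all holomorphic maps from the ball to the closed ball. -/
theorem rigid {n N r : ℕ} {R F : CE n → CE N} (hR : ProperHol n N R) (hr : RatDeg n N r R)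
    (hF : AnalyticOnNhd ℂ F (BB n)) (hF1 : ∀ z ∈ BB n, ‖F z‖ ≤ 1) (hj : SameJet r F R) :
    EqOn F R (BB n) := by
  obtain ⟨p, q, hp, hq, hpq⟩ := hr
  have hO := bigO_of_jet (hF 0 (zero_mem_BB n)) (hR.hol 0 (zero_mem_BB n)) hj
  intro z hz
  by_cases hz0 : z = 0
  · subst hz0
    have := hj 0 (Nat.zero_le r)
    have h2 := congrArg (fun L => L (fun _ => (0 : CE n))) this
    simpa using h2
  have hzn : 0 < ‖z‖ := norm_pos_iff.2 hz0
  set v : CE n := (‖z‖⁻¹ : ℂ) • z with hvdef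
  have hv : ‖v‖ = 1 := by
    rw [hvdef, norm_smul, norm_inv, Complex.norm_real, norm_norm, inv_mul_cancel₀ hzn.ne']
  have hzv : ((‖z‖ : ℝ) : ℂ) • v = z := by
    rw [hvdef, smul_smul, mul_inv_cancel₀ (by exact_mod_cast hzn.ne'), one_smul]
  have hmaps : ∀ ζ ∈ ball (0:ℂ) 1, ζ • v ∈ BB n := by
    intro ζ hζ
    rw [mem_BB, norm_smul, hv, mul_one]
    simpa using hζ
  have hlin : Differentiable ℂ (fun ζ : ℂ => ζ • v) := by fun_prop
  have key := core N r (fun i ζ => F (ζ • v) i) (fun i => sl v (p i)) (sl v q)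
    (by
      intro i ζ hζ
      have h1 : DifferentiableAt ℂ F (ζ • v) := (hF _ (hmaps ζ hζ)).differentiableAt
      have h2 : DifferentiableAt ℂ (fun ζ : ℂ => F (ζ • v)) ζ := h1.comp ζ hlin.differentiableAt
      have h3 := ((EuclideanSpace.proj i : CE N →L[ℂ] ℂ).differentiableAt).comp ζ h2
      exact h3.differentiableWithinAt)
    (by
      intro ζ hζ
      have := hF1 _ (hmaps ζ hζ)
      rw [← EuclideanSpace.norm_sq_eq]
      exact pow_le_one₀ (norm_nonneg _) this)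
    (fun i => sl_deg v (p i) r (hp i))
    (fun ω hω => circ_id hR p q hpq v hv ω hω)
    (by
      intro i
      have hb : ∀ᶠ ζ : ℂ in 𝓝 0, ζ ∈ ball (0:ℂ) 1 := ball_mem_nhds 0 one_pos
      have hcomp : (fun ζ : ℂ => F (ζ • v) - R (ζ • v)) =O[𝓝 0] (fun ζ : ℂ => ‖ζ • v‖ ^ (r+1)) := by
        have ht : Tendsto (fun ζ : ℂ => ζ • v) (𝓝 0) (𝓝 (0 : CE n)) := by
          have := (hlin.continuous).tendsto 0
          simpa using this
        exact hO.comp_tendsto ht
      have hcomp2 : (fun ζ : ℂ => F (ζ • v) i - R (ζ • v) i) =O[𝓝 0] (fun ζ : ℂ => ‖ζ‖ ^ (r+1)) := by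
        have h1 : (fun ζ : ℂ => F (ζ • v) i - R (ζ • v) i) =O[𝓝 0] (fun ζ : ℂ => F (ζ • v) - R (ζ • v)) := by
          apply Asymptotics.isBigO_of_le
          intro ζ
          have := PiLp.norm_apply_le (F (ζ • v) - R (ζ • v)) i
          simpa using this
        have h2 := h1.trans hcomp
        simpa [norm_smul, hv] using h2
      have hqb : (fun ζ : ℂ => (sl v q).eval ζ) =O[𝓝 0] (fun _ => (1:ℝ)) :=
        ((sl v q).continuous.continuousAt (x := 0)).norm.isBoundedUnder_le.isBigO_one ℝ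
      have h3 := hqb.mul hcomp2
      simp only [one_mul] at h3
      refine h3.congr' ?_ (EventuallyEq.refl _ _)
      filter_upwards [hb] with ζ hζ
      obtain ⟨hq0, hRi⟩ := hpq _ (hmaps ζ hζ)
      rw [hRi i, sl_eval, sl_eval]
      field_simp)
  have hzb : ((‖z‖ : ℝ) : ℂ) ∈ ball (0:ℂ) 1 := by
    simp only [mem_ball, dist_zero_right, Complex.norm_real, norm_norm]
    exact mem_BB.1 hz
  obtain ⟨hq0, hRi⟩ := hpq z hz
  ext i
  have := key _ hzb i
  simp only [sl_eval, hzv] at this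
  rw [hRi i, eq_div_iff hq0, mul_comm]
  exact this


/-- `F` is rational -/
def IsRat (n N : ℕ) (F : CE n → CE N) : Prop := ∃ d : ℕ, RatDeg n N d F

/-- proper rational maps are determined by their `r`-jets at the origin -/
def DetRat (n N r : ℕ) : Prop := ∀ R R' : CE n → CE N, ProperHol n N R → IsRat n N R →
  ProperHol n N R' → IsRat n N R' → SameJet r R R' → EqOn R R' (BB n)

/-- proper holomorphic maps are determined by their `r`-jets at the origin -/
def DetHol (n N r : ℕ) : Prop := ∀ F G : CE n → CE N, ProperHol n N F →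
  ProperHol n N G → SameJet r F G → EqOn F G (BB n)

/-- `r_rat(n,N)` (equal to `⊤` if there is no such `r`) -/
noncomputable def rrat (n N : ℕ) : ℕ∞ := ⨅ (r : ℕ) (_ : DetRat n N r), (r : ℕ∞)

/-- `r_hol(n,N)` (equal to `⊤` if there is no such `r`) -/
noncomputable def rhol (n N : ℕ) : ℕ∞ := ⨅ (r : ℕ) (_ : DetHol n N r), (r : ℕ∞)

/-- the largest degree of a proper rational map: the infimum of all `d` such that every proper
rational map is a quotient of polynomials of degree at most `d` -/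
noncomputable def maxdeg (n N : ℕ) : ℕ∞ :=
  ⨅ (d : ℕ) (_ : ∀ R : CE n → CE N, ProperHol n N R → IsRat n N R → RatDeg n N d R), (d : ℕ∞)

theorem rrat_le_maxdeg (n N : ℕ) : rrat n N ≤ maxdeg n N := by
  unfold maxdeg
  refine le_iInf₂ fun d hd => ?_
  refine iInf₂_le d ?_
  intro R R' hR hRr hR' hRr' hj
  exact rigid hR' (hd R' hR' hRr') hR.hol (fun z hz => (mem_BB.1 (hR.maps hz)).le) hj

theorem rrat_le_rhol (n N : ℕ) : rrat n N ≤ rhol n N := by
  unfold rhol
  refine le_iInf₂ fun r hr => ?_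
  refine iInf₂_le r ?_
  intro R R' hR _ hR' _ hj
  exact hr R R' hR hR' hj

/-! ### vanishing orders -/

open scoped ContDiff

/-- `f` vanishes to order `m` at the origin -/
def Van {n : ℕ} (m : ℕ) (f : CE n → ℂ) : Prop :=
  ContDiff ℂ ω f ∧ ∀ k < m, iteratedFDeriv ℂ k f 0 = 0

theorem Van.mul {n m m' : ℕ} {f g : CE n → ℂ} (hf : Van m f) (hg : Van m' g) :
    Van (m + m') (fun z => f z * g z) := by
  refine ⟨hf.1.mul hg.1, fun k hk => ?_⟩
  have h1 := norm_iteratedFDeriv_mul_le hf.1 hg.1 (0 : CE n) (n := k) (by exact le_top)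
  have h2 : ∑ i ∈ Finset.range (k + 1),
      (k.choose i : ℝ) * ‖iteratedFDeriv ℂ i f 0‖ * ‖iteratedFDeriv ℂ (k - i) g 0‖ = 0 := by
    apply Finset.sum_eq_zero
    intro i hi
    have hik : i ≤ k := by have := Finset.mem_range.1 hi; omega
    rcases lt_or_ge i m with h3 | h3
    · rw [hf.2 i h3]; simp
    · rw [hg.2 (k - i) (by omega)]; simp
  rw [h2] at h1
  exact norm_le_zero_iff.1 h1

theorem Van.one {n : ℕ} : Van (n := n) 0 (fun _ => (1:ℂ)) := ⟨contDiff_const, fun k hk => by omega⟩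

theorem Van.coord {n : ℕ} (j : Fin n) : Van 1 (fun z : CE n => z j) := by
  refine ⟨(EuclideanSpace.proj j : CE n →L[ℂ] ℂ).contDiff, fun k hk => ?_⟩
  have : k = 0 := by omega
  subst this
  rw [← norm_eq_zero, norm_iteratedFDeriv_zero]
  simp

theorem Van.pow {n : ℕ} (j : Fin n) (a : ℕ) : Van a (fun z : CE n => z j ^ a) := by
  induction a with
  | zero => simpa using Van.one
  | succ a ih =>
    have := ih.mul (Van.coord j)
    simpa [pow_succ] using this

theorem Van.prod {n : ℕ} (α : Fin n → ℕ) (s : Finset (Fin n)) :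
    Van (∑ j ∈ s, α j) (fun z : CE n => ∏ j ∈ s, z j ^ α j) := by
  induction s using Finset.induction_on with
  | empty => simpa using Van.one
  | insert j s hj ih =>
    have := (Van.pow j (α j)).mul ih
    simpa [Finset.sum_insert hj, Finset.prod_insert hj] using this

/-! ### monomial maps -/

/-- the monomial map with components `c_i z^{α_i}` -/
noncomputable def mono {n N : ℕ} (α : Fin N → Fin n → ℕ) (c : Fin N → ℝ) (z : CE n) : CE N :=
  WithLp.toLp 2 (fun i => (c i : ℂ) * ∏ j, z j ^ α i j)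

theorem mono_apply {n N : ℕ} (α : Fin N → Fin n → ℕ) (c : Fin N → ℝ) (z : CE n) (i : Fin N) :
    mono α c z i = (c i : ℂ) * ∏ j, z j ^ α i j := rfl

theorem mono_contDiff {n N : ℕ} (α : Fin N → Fin n → ℕ) (c : Fin N → ℝ) :
    ContDiff ℂ ω (mono α c) := by
  rw [contDiff_euclidean]
  intro i
  simp only [mono_apply]
  exact contDiff_const.mul (Van.prod (α i) Finset.univ).1

theorem mono_norm {n N : ℕ} (α : Fin N → Fin n → ℕ) (c : Fin N → ℝ) (z : CE n) :
    ‖mono α c z‖ ^ 2 = ∑ i, c i ^ 2 * ∏ j, (‖z j‖ ^ 2) ^ α i j := by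
  rw [EuclideanSpace.norm_sq_eq]
  apply Finset.sum_congr rfl
  intro i _
  rw [mono_apply, norm_mul, mul_pow, Complex.norm_real, Real.norm_eq_abs, sq_abs, norm_prod,
    ← Finset.prod_pow]
  congr 1
  apply Finset.prod_congr rfl
  intro j _
  rw [norm_pow, ← pow_mul, ← pow_mul, mul_comm]

/-- the data of a monomial sphere map without constant term -/
structure Sph {n N : ℕ} (α : Fin N → Fin n → ℕ) (c : Fin N → ℝ) : Prop where
  one : ∀ x : Fin n → ℝ, (∀ j, 0 ≤ x j) → ∑ j, x j = 1 → ∑ i, c i ^ 2 * ∏ j, x j ^ α i j = 1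
  pos : ∀ i, c i ≠ 0 → 1 ≤ ∑ j, α i j

theorem Sph.sphere {n N : ℕ} {α : Fin N → Fin n → ℕ} {c : Fin N → ℝ} (h : Sph α c) (z : CE n)
    (hz : ‖z‖ = 1) : ‖mono α c z‖ = 1 := by
  have h1 : ‖mono α c z‖ ^ 2 = 1 := by
    rw [mono_norm]
    apply h.one (fun j => ‖z j‖ ^ 2) (fun j => by positivity)
    rw [← EuclideanSpace.norm_sq_eq, hz, one_pow]
  have h2 := norm_nonneg (mono α c z)
  nlinarith

theorem Sph.ball {n N : ℕ} {α : Fin N → Fin n → ℕ} {c : Fin N → ℝ} (h : Sph α c) (z : CE n)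
    (hz : ‖z‖ < 1) : ‖mono α c z‖ < 1 := by
  have key : ‖mono α c z‖ ^ 2 ≤ ‖z‖ ^ 2 := by
    by_cases h0 : z = 0
    · subst h0
      rw [mono_norm]
      have : ∑ i, c i ^ 2 * ∏ j, (‖(0 : CE n) j‖ ^ 2) ^ α i j = 0 := by
        apply Finset.sum_eq_zero
        intro i _
        by_cases hc : c i = 0
        · rw [hc]; ring
        · have h1 := h.pos i hc
          obtain ⟨j, hj⟩ : ∃ j, α i j ≠ 0 := by
            by_contra hcon
            push Not at hcon
            rw [Finset.sum_eq_zero (fun j _ => hcon j)] at h1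
            omega
          rw [Finset.prod_eq_zero (Finset.mem_univ j), mul_zero]
          simp [hj]
      rw [this]; positivity
    · have hs : 0 < ‖z‖ ^ 2 := by positivity
      have h1 := h.one (fun j => ‖z j‖ ^ 2 / ‖z‖ ^ 2) (fun j => by positivity) (by
        rw [← Finset.sum_div, ← EuclideanSpace.norm_sq_eq, div_self hs.ne'])
      rw [mono_norm]
      have hle : ∀ i, c i ^ 2 * ∏ j, (‖z j‖ ^ 2) ^ α i j ≤
          ‖z‖ ^ 2 * (c i ^ 2 * ∏ j, (‖z j‖ ^ 2 / ‖z‖ ^ 2) ^ α i j) := by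
        intro i
        by_cases hc : c i = 0
        · rw [hc]; simp
        · have h2 := h.pos i hc
          have h3 : ∏ j, (‖z j‖ ^ 2) ^ α i j
              = (‖z‖ ^ 2) ^ (∑ j, α i j) * ∏ j, (‖z j‖ ^ 2 / ‖z‖ ^ 2) ^ α i j := by
            rw [← Finset.prod_pow_eq_pow_sum, ← Finset.prod_mul_distrib]
            apply Finset.prod_congr rfl
            intro j _
            rw [← mul_pow, mul_div_cancel₀ _ hs.ne']
          have h4 : (‖z‖ ^ 2) ^ (∑ j, α i j) ≤ ‖z‖ ^ 2 := by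
            have : (‖z‖ ^ 2) ^ (∑ j, α i j) ≤ (‖z‖ ^ 2) ^ 1 :=
              pow_le_pow_of_le_one hs.le (pow_le_one₀ (norm_nonneg _) hz.le) h2
            simpa using this
          have h5 : 0 ≤ c i ^ 2 * ∏ j, (‖z j‖ ^ 2 / ‖z‖ ^ 2) ^ α i j := by
            apply mul_nonneg (by positivity)
            exact Finset.prod_nonneg fun j _ => by positivity
          rw [h3]
          calc _ = (‖z‖ ^ 2) ^ (∑ j, α i j) * (c i ^ 2 * ∏ j, (‖z j‖ ^ 2 / ‖z‖ ^ 2) ^ α i j) := by ring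
            _ ≤ _ := mul_le_mul_of_nonneg_right h4 h5
      calc _ ≤ ∑ i, ‖z‖ ^ 2 * (c i ^ 2 * ∏ j, (‖z j‖ ^ 2 / ‖z‖ ^ 2) ^ α i j) :=
            Finset.sum_le_sum fun i _ => hle i
        _ = ‖z‖ ^ 2 := by rw [← Finset.mul_sum, h1, mul_one]
  have h2 := norm_nonneg (mono α c z)
  have h3 := norm_nonneg z
  nlinarith

theorem Sph.proper {n N : ℕ} {α : Fin N → Fin n → ℕ} {c : Fin N → ℝ} (h : Sph α c) :
    ProperHol n N (mono α c) := by
  refine ⟨(mono_contDiff α c).analyticOnNhd, fun z hz => mem_BB.2 (h.ball z (mem_BB.1 hz)), ?_⟩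
  intro K hK hKc
  have : BB n ∩ mono α c ⁻¹' K = Metric.closedBall 0 1 ∩ mono α c ⁻¹' K := by
    ext z
    constructor
    · rintro ⟨h1, h2⟩
      exact ⟨ball_subset_closedBall h1, h2⟩
    · rintro ⟨h1, h2⟩
      refine ⟨mem_BB.2 ?_, h2⟩
      rcases lt_or_eq_of_le (by simpa using h1 : ‖z‖ ≤ 1) with h3 | h3
      · exact h3
      · have h4 := mem_BB.1 (hK h2)
        rw [h.sphere z h3] at h4
        exact absurd h4 (lt_irrefl _)
  rw [this]
  exact (isCompact_closedBall _ _).inter_right (hKc.isClosed.preimage (mono_contDiff α c).continuous)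

theorem mono_rat {n N : ℕ} (α : Fin N → Fin n → ℕ) (c : Fin N → ℝ) : IsRat n N (mono α c) := by
  refine ⟨Finset.univ.sup (fun i => (MvPolynomial.C (c i : ℂ) * ∏ j, MvPolynomial.X j ^ α i j :
    MvPolynomial (Fin n) ℂ).totalDegree),
    fun i => MvPolynomial.C (c i : ℂ) * ∏ j, MvPolynomial.X j ^ α i j, 1, fun i => ?_, by simp, ?_⟩
  · exact Finset.le_sup (f := fun i => (MvPolynomial.C (c i : ℂ) * ∏ j, MvPolynomial.X j ^ α i j :
      MvPolynomial (Fin n) ℂ).totalDegree) (Finset.mem_univ i)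
  · intro z _
    refine ⟨by simp, fun i => ?_⟩
    rw [mono_apply]
    simp [map_prod]

theorem sameJet_flip {n N : ℕ} (α : Fin N → Fin n → ℕ) (c : Fin N → ℝ) (i0 : Fin N) (r : ℕ)
    (hr : r < ∑ j, α i0 j) : SameJet r (mono α c) (mono α (Function.update c i0 (- c i0))) := by
  intro k hk
  let e : CE N := EuclideanSpace.single i0 (2 * (c i0 : ℂ))
  let L : ℂ →L[ℂ] CE N := ContinuousLinearMap.toSpanSingleton ℂ e
  have hD : mono α c - mono α (Function.update c i0 (- c i0)) = L ∘ (fun z => ∏ j, z j ^ α i0 j) := by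
    funext z
    ext i
    simp only [Pi.sub_apply, PiLp.sub_apply, mono_apply, Function.comp, L,
      ContinuousLinearMap.toSpanSingleton_apply, PiLp.smul_apply, e]
    by_cases hi : i = i0
    · subst hi
      simp
      ring
    · simp [hi]
  have hV := Van.prod (α i0) Finset.univ
  have h1 : iteratedFDeriv ℂ k (mono α c - mono α (Function.update c i0 (- c i0))) 0 = 0 := by
    rw [hD, L.iteratedFDeriv_comp_left hV.1.contDiffAt (by exact le_top), hV.2 k (by omega)]
    ext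
    simp
  rw [iteratedFDeriv_sub_apply ((mono_contDiff _ _).contDiffAt.of_le (by exact le_top))
    ((mono_contDiff _ _).contDiffAt.of_le (by exact le_top))] at h1
  exact sub_eq_zero.1 h1

theorem Sph.flip {n N : ℕ} {α : Fin N → Fin n → ℕ} {c : Fin N → ℝ} (h : Sph α c) (i0 : Fin N) :
    Sph α (Function.update c i0 (- c i0)) := by
  have hsq : ∀ i, (Function.update c i0 (- c i0) i) ^ 2 = c i ^ 2 := by
    intro i
    by_cases hi : i = i0
    · subst hi; simp
    · simp [hi]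
  refine ⟨fun x hx hx1 => ?_, fun i hi => ?_⟩
  · rw [← h.one x hx hx1]
    exact Finset.sum_congr rfl fun i _ => by rw [hsq]
  · apply h.pos
    intro h0
    apply hi
    have := hsq i
    rw [h0] at this
    simpa using this

/-- lower bound from a monomial sphere map -/
theorem Sph.lower {n N : ℕ} {α : Fin N → Fin n → ℕ} {c : Fin N → ℝ} (h : Sph α c) (i0 : Fin N)
    (h0 : c i0 ≠ 0) : ((∑ j, α i0 j : ℕ) : ℕ∞) ≤ rrat n N := by
  unfold rrat
  refine le_iInf₂ fun r hr => ?_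
  by_contra hlt
  have hlt' : r < ∑ j, α i0 j := by
    have := not_le.1 hlt
    exact_mod_cast this
  have heq := hr _ _ h.proper (mono_rat α c) (h.flip i0).proper (mono_rat α _)
    (sameJet_flip α c i0 r hlt')
  let z : CE n := WithLp.toLp 2 (fun _ => ((1 / (n + 1) : ℝ) : ℂ))
  have hz : z ∈ BB n := by
    rw [mem_BB]
    have h1 : ‖z‖ ^ 2 < 1 := by
      rw [EuclideanSpace.norm_sq_eq]
      have : ∀ j : Fin n, ‖z j‖ ^ 2 = (1 / (n + 1) : ℝ) ^ 2 := by
        intro j
        change ‖((1 / (n + 1) : ℝ) : ℂ)‖ ^ 2 = _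
        rw [Complex.norm_real, Real.norm_eq_abs, sq_abs]
      rw [Finset.sum_congr rfl (fun j _ => this j)]
      simp only [Finset.sum_const, Finset.card_univ, Fintype.card_fin, nsmul_eq_mul]
      rw [div_pow, one_pow, mul_one_div, div_lt_one (by positivity)]
      nlinarith [(Nat.cast_nonneg n : (0:ℝ) ≤ n)]
    nlinarith [norm_nonneg z]
  have h1 := congrArg (fun w : CE N => w i0) (heq hz)
  simp only [mono_apply, Function.update_self] at h1
  have h2 : ∏ j, z j ^ α i0 j ≠ 0 := by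
    apply Finset.prod_ne_zero_iff.2
    intro j _
    apply pow_ne_zero
    change ((1 / (n + 1) : ℝ) : ℂ) ≠ 0
    have : (1 / (n + 1) : ℝ) ≠ 0 := by positivity
    exact_mod_cast this
  have h3 := mul_right_cancel₀ h2 h1
  have h4 : c i0 = - c i0 := by exact_mod_cast h3
  apply h0
  linarith

/-- lower bound, with an arbitrary index type for the components -/
theorem lower {n N : ℕ} {ι : Type} [Fintype ι] (hN : Fintype.card ι ≤ N) (α : ι → Fin n → ℕ)
    (c : ι → ℝ)
    (h1 : ∀ x : Fin n → ℝ, (∀ j, 0 ≤ x j) → ∑ j, x j = 1 → ∑ i, c i ^ 2 * ∏ j, x j ^ α i j = 1)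
    (h2 : ∀ i, 1 ≤ ∑ j, α i j) (i0 : ι) (h0 : c i0 ≠ 0) :
    ((∑ j, α i0 j : ℕ) : ℕ∞) ≤ rrat n N := by
  classical
  obtain ⟨e⟩ : Nonempty (ι ↪ Fin N) := Function.Embedding.nonempty_of_card_le (by simpa using hN)
  have hα : ∀ i, Function.extend e α 0 (e i) = α i := fun i => e.injective.extend_apply _ _ _
  have hc : ∀ i, Function.extend e c 0 (e i) = c i := fun i => e.injective.extend_apply _ _ _
  have hc0 : ∀ k, (¬ ∃ i, e i = k) → Function.extend e c 0 k = 0 := fun k hk =>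
    Function.extend_apply' _ _ _ hk
  have hS : Sph (Function.extend e α 0) (Function.extend e c 0) := by
    refine ⟨fun x hx hx1 => ?_, fun k hk => ?_⟩
    · rw [← h1 x hx hx1]
      have : ∑ i, c i ^ 2 * ∏ j, x j ^ α i j = ∑ k ∈ Finset.univ.map e,
          (Function.extend e c 0 k) ^ 2 * ∏ j, x j ^ (Function.extend e α 0 k) j := by
        rw [Finset.sum_map]
        exact Finset.sum_congr rfl fun i _ => by rw [hα, hc]
      rw [this]
      symm
      apply Finset.sum_subset (Finset.subset_univ _)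
      intro k _ hk
      rw [hc0 k (by
        rintro ⟨i, hi⟩
        exact hk (Finset.mem_map.2 ⟨i, Finset.mem_univ _, hi⟩))]
      ring
    · by_cases hex : ∃ i, e i = k
      · obtain ⟨i, rfl⟩ := hex
        rw [hα]
        exact h2 i
      · exact absurd (hc0 k hex) hk
  have := hS.lower (e i0) (by rw [hc]; exact h0)
  rw [hα] at this
  exact this


/-! ### special lower bounds -/

/-- `n ≥ 2`: the lower bound `⌊(N-1)/(n-1)⌋` -/
theorem lower_gen (m N : ℕ) : (((N - 1) / m : ℕ) : ℕ∞) ≤ rrat (m + 1) N := by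
  set d := (N - 1) / m with hd
  rcases Nat.eq_zero_or_pos d with h0 | hpos
  · rw [h0]; simp
  have hN1 : 1 ≤ N := by
    by_contra h
    have : N = 0 := by omega
    subst this
    simp at hd
    omega
  have hmd : m * d ≤ N - 1 := Nat.mul_div_le _ _
  let α : Option (Fin m × Fin d) → Fin (m + 1) → ℕ := fun o => match o with
    | none => Fin.snoc (fun _ => 0) d
    | some p => Fin.snoc (fun l => if l = p.1 then 1 else 0) p.2
  have hcard : Fintype.card (Option (Fin m × Fin d)) ≤ N := by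
    simp only [Fintype.card_option, Fintype.card_prod, Fintype.card_fin]
    omega
  have := lower (n := m + 1) hcard α (fun _ => 1) (by
    intro x hx hx1
    rw [Fintype.sum_option, Fintype.sum_prod_type]
    rw [Fin.sum_univ_castSucc] at hx1
    have e1 : ∀ (k : Fin m) (j : Fin d), ∏ l, x l ^ α (some (k, j)) l
        = x k.castSucc * x (Fin.last m) ^ (j : ℕ) := by
      intro k j
      rw [Fin.prod_univ_castSucc]
      simp only [α, Fin.snoc_castSucc, Fin.snoc_last]
      congr 1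
      rw [Finset.prod_eq_single k]
      · simp
      · intro b _ hb; simp [hb]
      · intro h; exact absurd (Finset.mem_univ _) h
    have e2 : ∏ l, x l ^ α none l = x (Fin.last m) ^ d := by
      rw [Fin.prod_univ_castSucc]
      simp only [α, Fin.snoc_castSucc, Fin.snoc_last]
      simp
    simp only [e1, e2, one_pow, one_mul]
    have e3 : ∑ k : Fin m, ∑ j : Fin d, x k.castSucc * x (Fin.last m) ^ (j : ℕ)
        = (1 - x (Fin.last m)) * ∑ j ∈ Finset.range d, x (Fin.last m) ^ j := by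
      have : 1 - x (Fin.last m) = ∑ k : Fin m, x k.castSucc := by linarith
      rw [this, Finset.sum_mul]
      apply Finset.sum_congr rfl
      intro k _
      rw [← Finset.mul_sum, Finset.sum_range]
    rw [e3, mul_comm, geom_sum_mul_neg]
    ring) (by
    intro o
    rcases o with _ | p
    · rw [Fin.sum_univ_castSucc]
      simp only [α, Fin.snoc_castSucc, Fin.snoc_last]
      simp; omega
    · rw [Fin.sum_univ_castSucc]
      simp only [α, Fin.snoc_castSucc, Fin.snoc_last]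
      simp) none one_ne_zero
  refine le_trans ?_ this
  have hsum : ∑ l, α none l = d := by
    rw [Fin.sum_univ_castSucc]
    simp only [α, Fin.snoc_castSucc, Fin.snoc_last]
    simp
  rw [hsum]

/-- the coefficients of the D'Angelo polynomials -/
def Lc : ℕ → ℕ → ℕ
  | 0, 0 => 2
  | 0, _ + 1 => 0
  | 1, 0 => 1
  | 1, _ + 1 => 0
  | m + 2, 0 => Lc (m + 1) 0
  | m + 2, s + 1 => Lc (m + 1) (s + 1) + Lc m s

theorem Lc_zero : ∀ m s : ℕ, m < 2 * s → Lc m s = 0
  | 0, 0, h => by omega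
  | 0, _ + 1, _ => by simp [Lc]
  | 1, 0, h => by omega
  | 1, _ + 1, _ => by simp [Lc]
  | m + 2, 0, h => by omega
  | m + 2, s + 1, h => by
    rw [Lc, Lc_zero (m + 1) (s + 1) (by omega), Lc_zero m s (by omega)]

/-- the Lucas type polynomials -/
def Gp (m : ℕ) (x y : ℝ) : ℝ := ∑ s ∈ Finset.range (m + 1), (Lc m s : ℝ) * x ^ (m - 2 * s) * y ^ s

theorem Gp_rec (m : ℕ) (x y : ℝ) : Gp (m + 2) x y = x * Gp (m + 1) x y + y * Gp m x y := by
  have h1 : Gp (m + 2) x y = ∑ s ∈ Finset.range (m + 2),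
      ((Lc (m + 1) (s + 1) : ℝ) * x ^ (m - 2 * s) * y ^ (s + 1) + (Lc m s : ℝ) * x ^ (m - 2 * s) * y ^ (s + 1))
      + (Lc (m + 1) 0 : ℝ) * x ^ (m + 2) := by
    unfold Gp
    rw [Finset.sum_range_succ']
    congr 1
    · apply Finset.sum_congr rfl
      intro s _
      rw [Lc]
      have : m + 2 - 2 * (s + 1) = m - 2 * s := by omega
      rw [this]
      push_cast
      ring
    · rw [Lc]; simp
  have h2 : x * Gp (m + 1) x y = ∑ s ∈ Finset.range (m + 2),
      ((Lc (m + 1) (s + 1) : ℝ) * x ^ (m - 2 * s) * y ^ (s + 1))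
      + (Lc (m + 1) 0 : ℝ) * x ^ (m + 2) := by
    unfold Gp
    rw [Finset.sum_range_succ', mul_add, Finset.mul_sum, Finset.sum_range_succ _ (m + 1)]
    have h3 : (Lc (m + 1) (m + 1 + 1) : ℝ) = 0 := by
      rw [Lc_zero (m + 1) (m + 1 + 1) (by omega)]; simp
    rw [h3, zero_mul, zero_mul, add_zero]
    congr 1
    · apply Finset.sum_congr rfl
      intro s _
      by_cases h : 2 * (s + 1) ≤ m + 1
      · have : m - 2 * s = (m + 1 - 2 * (s + 1)) + 1 := by omega
        rw [this, pow_succ]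
        ring
      · rw [Lc_zero (m + 1) (s + 1) (by omega)]
        simp
    · simp only [mul_zero, Nat.sub_zero, pow_zero, mul_one]
      ring
  have h4 : y * Gp m x y = ∑ s ∈ Finset.range (m + 2), (Lc m s : ℝ) * x ^ (m - 2 * s) * y ^ (s + 1) := by
    unfold Gp
    rw [Finset.mul_sum, Finset.sum_range_succ _ (m + 1), Lc_zero m (m + 1) (by omega)]
    simp only [Nat.cast_zero, zero_mul, add_zero]
    apply Finset.sum_congr rfl
    intro s _
    ring
  rw [h1, h2, h4, Finset.sum_add_distrib]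
  ring

theorem Gp_eq (x y : ℝ) (h : x + y = 1) : ∀ m : ℕ, Gp m x y = 1 + (-y) ^ m
  | 0 => by simp [Gp, Lc]; norm_num
  | 1 => by
    simp [Gp, Lc, Finset.sum_range_succ]
    linarith
  | m + 2 => by
    rw [Gp_rec, Gp_eq x y h (m + 1), Gp_eq x y h m]
    have : x = 1 - y := by linarith
    rw [this]
    ring

theorem Lc_head : ∀ m : ℕ, Lc (m + 1) 0 = 1
  | 0 => by simp [Lc]
  | m + 1 => by rw [Lc, Lc_head m]

/-- `n = 2`: the lower bound `2N-3` -/
theorem lower_two (k : ℕ) : ((2 * k + 1 : ℕ) : ℕ∞) ≤ rrat 2 (k + 2) := by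
  let α : Option (Fin (k + 1)) → Fin 2 → ℕ := fun o => match o with
    | none => ![0, 2 * k + 1]
    | some s => ![2 * k + 1 - 2 * s, s]
  let c : Option (Fin (k + 1)) → ℝ := fun o => match o with
    | none => 1
    | some s => √(Lc (2 * k + 1) s)
  have hcard : Fintype.card (Option (Fin (k + 1))) ≤ k + 2 := by simp
  have := lower (n := 2) hcard α c (by
    intro x hx hx1
    rw [Fintype.sum_option]
    rw [Fin.sum_univ_two] at hx1
    simp only [α, c, Fin.prod_univ_two, Matrix.cons_val_zero, Matrix.cons_val_one, pow_zero, one_mul,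
      one_pow]
    have e1 : ∀ s : Fin (k + 1), √(Lc (2 * k + 1) s : ℝ) ^ 2 = Lc (2 * k + 1) s := fun s =>
      Real.sq_sqrt (Nat.cast_nonneg _)
    simp only [e1]
    have e2 := Gp_eq (x 0) (x 1) hx1 (2 * k + 1)
    have e3 : Gp (2 * k + 1) (x 0) (x 1) = ∑ s : Fin (k + 1),
        (Lc (2 * k + 1) s : ℝ) * (x 0 ^ (2 * k + 1 - 2 * (s : ℕ)) * x 1 ^ (s : ℕ)) := by
      unfold Gp
      rw [← Finset.sum_range (fun s => (Lc (2 * k + 1) s : ℝ) * (x 0 ^ (2 * k + 1 - 2 * s) * x 1 ^ s))]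
      symm
      have hsub : Finset.range (k + 1) ⊆ Finset.range (2 * k + 1 + 1) :=
        Finset.range_subset_range.2 (by omega)
      rw [Finset.sum_subset hsub]
      · apply Finset.sum_congr rfl
        intro s _
        ring
      · intro s _ hs
        have : k + 1 ≤ s := by
          by_contra hlt
          exact hs (Finset.mem_range.2 (by omega))
        rw [Lc_zero (2 * k + 1) s (by omega)]
        simp
    rw [← e3, e2]
    have e4 : (-x 1) ^ (2 * k + 1) = - (x 1) ^ (2 * k + 1) := by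
      rw [Odd.neg_pow ⟨k, rfl⟩]
    rw [e4]
    ring) (by
    intro o
    rcases o with _ | s
    · simp [α, Fin.sum_univ_two]
    · have := s.2
      simp only [α, Fin.sum_univ_two, Matrix.cons_val_zero, Matrix.cons_val_one]
      omega) none one_ne_zero
  refine le_trans ?_ this
  have hsum : ∑ l, α none l = 2 * k + 1 := by simp [α, Fin.sum_univ_two]
  rw [hsum]

/-- `n = 1` -/
theorem lower_one (N d : ℕ) (hN : 1 ≤ N) : (d : ℕ∞) ≤ rrat 1 N := by
  rcases Nat.eq_zero_or_pos d with h0 | hpos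
  · rw [h0]; simp
  have := lower (n := 1) (ι := Unit) (by simpa using hN) (fun _ _ => d) (fun _ => 1) (by
    intro x hx hx1
    simp only [Finset.univ_unique, Fin.default_eq_zero, Finset.sum_singleton] at hx1
    simp [hx1]) (by intro _; simp; omega) () one_ne_zero
  simpa using this

theorem rrat_one (N : ℕ) (hN : 1 ≤ N) : rrat 1 N = ⊤ := by
  rw [ENat.eq_top_iff_forall_ge]
  intro d
  exact lower_one N d hN


/-- the largest degree of a monomial map `(c_i z^{α_i})` of the unit sphere into the unit sphere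
without constant term -/
noncomputable def mondeg (n N : ℕ) : ℕ∞ :=
  ⨆ (α : Fin N → Fin n → ℕ) (c : Fin N → ℝ) (_ : Sph α c) (i : Fin N) (_ : c i ≠ 0),
    ((∑ j, α i j : ℕ) : ℕ∞)

theorem mondeg_le (n N : ℕ) : mondeg n N ≤ rrat n N := by
  unfold mondeg
  refine iSup_le fun α => iSup_le fun c => iSup_le fun h => iSup_le fun i => iSup_le fun hi => ?_
  exact h.lower i hi

/-- A proper rational map of degree at most `r` is determined by its `r`-jet at the origin among
all holomorphic maps into the closed ball; hence `r_rat(n,N)` is at most the largest degree of a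
proper rational map. It is at least the largest degree of a monomial sphere map. -/
theorem result (n N : ℕ) :
    (∀ (r : ℕ) (R F : CE n → CE N), ProperHol n N R → RatDeg n N r R →
      AnalyticOnNhd ℂ F (BB n) → (∀ z ∈ BB n, ‖F z‖ ≤ 1) → SameJet r F R → EqOn F R (BB n)) ∧
    rrat n N ≤ maxdeg n N ∧ mondeg n N ≤ rrat n N ∧
    (2 ≤ n → (((N - 1) / (n - 1) : ℕ) : ℕ∞) ≤ rrat n N) ∧
    (n = 2 → 2 ≤ N → ((2 * N - 3 : ℕ) : ℕ∞) ≤ rrat n N) ∧
    (n = 1 → 1 ≤ N → rrat n N = ⊤) := by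
  refine ⟨fun r R F hR hr hF hF1 hj => rigid hR hr hF hF1 hj, rrat_le_maxdeg n N, mondeg_le n N,
    fun hn => ?_, fun hn hN => ?_, fun hn hN => ?_⟩
  · obtain ⟨m, rfl⟩ : ∃ m, n = m + 1 := ⟨n - 1, by omega⟩
    exact lower_gen m N
  · subst hn
    obtain ⟨k, rfl⟩ : ∃ k, N = k + 2 := ⟨N - 2, by omega⟩
    have : 2 * (k + 2) - 3 = 2 * k + 1 := by omega
    rw [this]
    exact lower_two k
  · subst hn
    exact rrat_one N hN

end Pool.Agent.Results.MP_7906d6_an.JetDegree
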